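import Pool.Agent.P.MP_c9a3a4_mp.H.Lim
import Pool.Agent.P.MP_c9a3a4_mp.H.Defs2

set_option autoImplicit false

namespace Pool.Agent.Results.MP_c9a3a4_mp.FixedHull

open Pool.Agent.P.MP_c9a3a4_mp Pool.Agent.P.MP_c9a3a4_mp.H

/-- Inside every unbounded chain of periods, every limit-periodic potential is approximated by
potentials with exactly that chain of almost periods whose spectrum contains an interval next to
a prescribed point of the spectrum, on which all solutions are uniformly bounded. -/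
theorem result (p : ℕ → ℕ) (hp : ∀ k, 0 < p k) (hd : ∀ k, p k ∣ p (k + 1))
    (hu : ∀ M, ∃ k, M < p k) (V : ℤ → ℝ) (hV : LP p V)
    (E₀ : ℝ) (hE : InSpec V E₀) (ε : ℝ) (hε : 0 < ε) :
    ∃ (V' : ℤ → ℝ) (a b C : ℝ), LP p V' ∧ (∀ n, |V n - V' n| < ε) ∧ Exact p V' ∧
      E₀ - ε < a ∧ a < b ∧ b < E₀ + ε ∧
      ∀ E ∈ Set.Icc a b, InSpec V' E ∧ BddSol V' E C := by
  obtain ⟨H, hH, hE⟩ := hE
  have hd' : ∀ k j, k ≤ j → p k ∣ p j := fun k j hkj => by
    induction j, hkj using Nat.le_induction with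
    | base => rfl
    | succ j _ ih => exact ih.trans (hd j)
  obtain ⟨N₀, hN₀⟩ := exists_energy hH hE (η := ε / 4) (by positivity)
  obtain ⟨k₁, W, hW, hVW⟩ := hV (ε / 4) (by positivity)
  obtain ⟨k₂, hk₂⟩ := hu (N₀ + 3)
  have hle := Nat.le_of_dvd (hp _) (hd' _ _ (le_max_right k₁ k₂))
  have hW2 : ∀ n : ℤ, W (n + p (max k₁ k₂)) = W n := by
    obtain ⟨c, hc⟩ := hd' _ _ (le_max_left k₁ k₂)
    intro n
    have := (show Function.Periodic W (p k₁ : ℤ) from hW).nat_mul c n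
    rw [hc, mul_comm]; push_cast; exact this
  obtain ⟨a, ha, ht⟩ := hN₀ W _ (by omega) hW2 fun n => (hVW n).le
  obtain ⟨b, B, hab, hb, hG⟩ := exists_good2 W (by omega) hW2 ht (ρ := ε / 4) (by positivity)
  have hconn : ConnectedSpace (Set.Icc a b) :=
    isConnected_iff_connectedSpace.1 (isConnected_Icc hab.le)
  have hnt : Nontrivial (Set.Icc a b) :=
    ⟨⟨⟨a, Set.left_mem_Icc.2 hab.le⟩, ⟨b, Set.right_mem_Icc.2 hab.le⟩,
      fun h => hab.ne (congrArg Subtype.val h)⟩⟩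
  obtain ⟨V', h1, h2, h3, h4⟩ := exists_limit2 (fun y => inferInstance)
    continuous_subtype_val Subtype.val_injective hp hd hG (ε := ε / 2) (by positivity)
  obtain ⟨K, hK⟩ : ∃ K, ∀ n, |W n| ≤ K := by
    refine ⟨∑ i : Fin (p k₁), |W (i : ℕ)|, fun n => ?_⟩
    have e : W n = W ((red (hp k₁) n : ℕ) : ℤ) := by
      have h0 : (0 : ℤ) < p k₁ := by exact_mod_cast hp k₁
      rw [red, Int.toNat_of_nonneg (Int.emod_nonneg _ h0.ne'),
        ← (show Function.Periodic W (p k₁ : ℤ) from hW).int_mul (n / p k₁) (n % p k₁)]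
      congr 1
      have := Int.emod_add_ediv_mul n (p k₁)
      push_cast
      linarith
    rw [e]
    exact Finset.single_le_sum (f := fun i : Fin (p k₁) => |W (i : ℕ)|) (fun _ _ => abs_nonneg _)
      (Finset.mem_univ _)
  obtain ⟨H', hH'⟩ := exists_schr (V := V') (C := K + ε / 2) fun n => by
    have := abs_sub_abs_le_abs_sub (V' n) (W n)
    linarith [h1 n, hK n]
  have ha' := abs_lt.1 ha
  refine ⟨V', a, b, _, fun δ hδ => ?_, fun n => ?_, h3, by linarith [ha'.1], hab,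
    by linarith [ha'.2], fun E hE' => ⟨⟨H', hH', mem_spec hH' fun δ hδ => ?_⟩,
      fun ψ hψ k n => (h4 ⟨E, hE'⟩).sol hψ k n⟩⟩
  · obtain ⟨V₁, k, ⟨m, c, -, hD, -⟩, h⟩ := h2 δ hδ
    exact ⟨k, V₁, hD.per, h⟩
  · have e1 := abs_lt.1 (hVW n)
    have e2 := abs_lt.1 (h1 n)
    rw [abs_lt]
    constructor <;> linarith [e1.1, e1.2, e2.1, e2.2]
  · obtain ⟨V₁, k, ⟨m, c, -, hD, -⟩, h⟩ := h2 δ hδ
    exact ⟨V₁, p k, m ⟨E, hE'⟩, hD.pos, hD.per, (hD.im_pos _).ne', hD.bloch ⟨E, hE'⟩,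
      fun n => (h n).le⟩

end Pool.Agent.Results.MP_c9a3a4_mp.FixedHull
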